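import Pool.Agent.X297.GT.Defs
import Pool.Agent.X297.TIL
import Pool.Agent.X297.GR.Lat
import Pool.Agent.X297.GR.Count
import Pool.Agent.Y129.Pow

/-!
# The growth of the number of Tate classes on the powers of a variety with toric Galois action
-/

open CategoryTheory AlgebraicGeometry Filter Topology

open scoped ENNReal

universe u v w

namespace Pool.Agent.X297.GT

open Pool.Agent.H914 Pool.Agent.H914.VarClass Pool.Agent.H914.VarClass.Obj
  Pool.Agent.H914.WeilCohomology Pool.Agent.H281R3.HT Pool.Agent.TH125.Gal Pool.Agent.X297.TIL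
open Pool.Agent.Y129 (pw pj word exists_word_basis word_succ tateClasses cycRank)

variable {k : Type u} [Field k] {𝒱 : VarClass k} {ops : CycleOps 𝒱}
  {W : WeilCohomology.{u, v} ops} {X : 𝒱.Obj} {Γ : Type w} [Group Γ] {χ : Γ →* W.Kˣ}

/-- A basis of homogeneous eigenvectors. -/
structure GB (G : GaloisPowers W X Γ χ) (Δ : Subgroup Γ) (b : ℕ) where
  v : Module.Basis (Fin b) W.K (W.H X)
  dg : Fin b → ℕ
  ps : Fin b → (Δ →* W.Kˣ)
  mem : ∀ i, v i ∈ W.gr X (dg i)
  eig : ∀ i, IsEigen (A := W.H X) (G.act 0) Δ (ps i) (v i)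

variable {G : GaloisPowers W X Γ χ} {Δ : Subgroup Γ}

lemma exists_GB (h : IsToric G Δ) : Nonempty (GB G Δ (Module.finrank W.K (W.H X))) := by
  set S : Set (W.H X) := {x | ∃ i ψ, x ∈ W.gr X i ∧ IsEigen (A := W.H X) (G.act 0) Δ ψ x} with hS
  have htop' : Submodule.span W.K S = ⊤ := h.diagonal
  obtain ⟨f, hf, hf2, hf3⟩ := Submodule.exists_fun_fin_finrank_span_eq W.K S
  have htop : Submodule.span W.K (Set.range f) = ⊤ := by rw [hf2]; exact htop'
  have hn : Module.finrank W.K (Submodule.span W.K S) = Module.finrank W.K (W.H X) := by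
    rw [htop', finrank_top]
  let v := (Module.Basis.mk hf3 (by rw [htop])).reindex (finCongr hn)
  have hv : ∀ i, v i ∈ S := by
    intro i
    rw [Module.Basis.reindex_apply, Module.Basis.mk_apply]
    exact hf _
  choose d ψ h1 h2 using hv
  exact ⟨⟨v, d, ψ, h1, h2⟩⟩

namespace GB

variable {b : ℕ} (B : GB G Δ b)

lemma word_mem (n : ℕ) (x : Fin (n + 1) → Fin b) :
    word B.v n x ∈ W.gr (pw X n) (∑ i, B.dg (x i)) := by
  induction n with
  | zero =>
    rw [word, List.ofFn_succ, List.ofFn_zero, List.prod_cons, List.prod_nil, mul_one,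
      Fin.sum_univ_one]
    exact W.map_mem _ (B.mem _)
  | succ n ih =>
    rw [word_succ, Fin.sum_univ_succ]
    exact W.mul_mem (W.map_mem _ (B.mem _)) (W.map_mem _ (ih _))

lemma word_eig (n : ℕ) (x : Fin (n + 1) → Fin b) (g : Δ) :
    G.act n g (word B.v n x) = ((∏ i, B.ps (x i)) g : W.K) • word B.v n x := by
  have h1 : ∀ i, G.act n g (W.map (pj X n i) (B.v (x i))) =
      (B.ps (x i) g : W.K) • W.map (pj X n i) (B.v (x i)) := fun i =>
    (G.isAct.proj n i g (B.v (x i))).trans ((congrArg (W.map (pj X n i)) (B.eig (x i) g)).trans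
      (map_smul _ _ _))
  have h2 : ∀ l : List (Fin (n + 1)), G.act n g (l.map fun i => W.map (pj X n i) (B.v (x i))).prod =
      (((l.map fun i => B.ps (x i)).prod g : W.Kˣ) : W.K) •
        (l.map fun i => W.map (pj X n i) (B.v (x i))).prod := by
    intro l
    induction l with
    | nil => simp
    | cons i l ih =>
      rw [List.map_cons, List.prod_cons, map_mul, ih, h1, List.map_cons, List.prod_cons,
        MonoidHom.mul_apply, Units.val_mul, smul_mul_smul_comm]
  have h3 := h2 (List.finRange (n + 1))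
  rw [← List.ofFn_eq_map, ← List.ofFn_eq_map, List.prod_ofFn (f := fun i => B.ps (x i))] at h3
  exact h3

/-- The words which are Tate classes. -/
def Good {n : ℕ} (x : Fin n → Fin b) : Prop :=
  ∃ j, ∑ i, B.dg (x i) = 2 * j ∧ ∃ m, 0 < m ∧
    ∀ g : Δ, ((∏ i, B.ps (x i)) g) ^ m = (χ g ^ j) ^ m

end GB

/-- The space spanned by the Tate classes. -/
noncomputable def T (G : GaloisPowers W X Γ χ) (n : ℕ) : Submodule W.K (W.H (pw X n)) :=
  Submodule.span W.K {c | ∃ j, G.IsTateClass n j c}

/-- A character of finite order is trivial on a subgroup of finite index, and conversely. -/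
lemma finiteIndex_ker {K : Type*} [Field K] {D : Type*} [Group D] (ψ : D →* Kˣ) :
    (∃ m, 0 < m ∧ ∀ g, ψ g ^ m = 1) ↔ ψ.ker.FiniteIndex := by
  constructor
  · rintro ⟨m, hm, h⟩
    have hne : NeZero m := ⟨hm.ne'⟩
    have hmem : ∀ g, ψ g ∈ rootsOfUnity m K := by
      intro g
      rw [mem_rootsOfUnity]
      exact h g
    let φ : D →* rootsOfUnity m K := ψ.codRestrict _ hmem
    have hker : φ.ker = ψ.ker := by
      ext g
      rw [MonoidHom.mem_ker, MonoidHom.mem_ker]
      exact ⟨fun h => congrArg Subtype.val h, fun h => Subtype.ext h⟩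
    rw [← hker]
    infer_instance
  · intro h
    refine ⟨ψ.ker.index, Nat.pos_of_ne_zero h.index_ne_zero, fun g => ?_⟩
    have := Subgroup.pow_index_mem ψ.ker g
    rwa [MonoidHom.mem_ker, map_pow] at this

/-- Two characters of a subgroup of finite index. -/
lemma finite_order_iff {Δ : Subgroup Γ} (hΔ : Δ.FiniteIndex) (ψ θ : Δ →* W.Kˣ) :
    (∃ m, 0 < m ∧ ∀ g, ψ g ^ m = θ g ^ m) ↔
      ∃ Δ' : Subgroup Γ, Δ'.FiniteIndex ∧ ∀ g : Δ, (g : Γ) ∈ Δ' → ψ g = θ g := by
  have hquot : ∀ g, (ψ / θ) g = ψ g / θ g := fun g => rfl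
  constructor
  · rintro ⟨m, hm, h⟩
    have h1 : (ψ / θ).ker.FiniteIndex := by
      rw [← finiteIndex_ker]
      refine ⟨m, hm, fun g => ?_⟩
      rw [hquot, div_pow, h g, div_self']
    refine ⟨(ψ / θ).ker.map Δ.subtype, ⟨?_⟩, ?_⟩
    · rw [Subgroup.index_map_subtype]
      exact Nat.mul_ne_zero h1.index_ne_zero hΔ.index_ne_zero
    · rintro g ⟨g', hg', hgg⟩
      have h2 : g' = g := Subtype.ext hgg
      subst h2
      have h3 : (ψ / θ) g' = 1 := hg'
      rw [hquot, div_eq_one] at h3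
      exact h3
  · rintro ⟨Δ', hΔ', h⟩
    have h1 : (ψ / θ).ker.FiniteIndex := by
      have h2 : Δ'.subgroupOf Δ ≤ (ψ / θ).ker := by
        intro g hg
        rw [MonoidHom.mem_ker, hquot, div_eq_one]
        exact h g (Subgroup.mem_subgroupOf.1 hg)
      have h3 : (Δ'.subgroupOf Δ).FiniteIndex := inferInstance
      exact Subgroup.finiteIndex_of_le h2
    obtain ⟨m, hm, h2⟩ := (finiteIndex_ker (ψ / θ)).2 h1
    refine ⟨m, hm, fun g => ?_⟩
    have h3 := h2 g
    rw [hquot, div_pow, div_eq_one] at h3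
    exact h3

namespace GB

variable {b : ℕ} (B : GB G Δ b)

lemma word_T (hΔ : Δ.FiniteIndex) {n : ℕ} {x : Fin (n + 1) → Fin b} (hx : B.Good x) :
    ∃ j, G.IsTateClass n j (word B.v n x) := by
  obtain ⟨j, hj, hm⟩ := hx
  obtain ⟨Δ', hΔ', h⟩ := (finite_order_iff (W := W) hΔ (∏ i, B.ps (x i))
    ((χ.comp Δ.subtype) ^ j)).1 hm
  refine ⟨j, ?_, Δ ⊓ Δ', inferInstance, ?_⟩
  · rw [← hj]
    exact B.word_mem n x
  · rintro g ⟨hg1, hg2⟩
    have h1 := B.word_eig n x ⟨g, hg1⟩
    rw [h ⟨g, hg1⟩ hg2] at h1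
    exact h1

lemma T_eq (hΔ : Δ.FiniteIndex) (n : ℕ)
    {e : Module.Basis (Fin (n + 1) → Fin b) W.K (W.H (pw X n))} (he : ∀ x, e x = word B.v n x) :
    T G n = Submodule.span W.K (Set.range fun x : {x // B.Good x} => e x.1) := by
  classical
  apply le_antisymm
  · rw [T, Submodule.span_le]
    rintro c ⟨j, hc1, Δ', hΔ', hc2⟩
    change c ∈ Submodule.span W.K (Set.range fun x : {x // B.Good x} => e x.1)
    rw [← e.sum_repr c]
    refine Submodule.sum_mem _ fun x _ => ?_
    by_cases hx : e.repr c x = 0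
    · rw [hx, zero_smul]
      exact Submodule.zero_mem _
    refine Submodule.smul_mem _ _ (Submodule.subset_span ⟨⟨x, j, ?_, ?_⟩, rfl⟩)
    · by_contra hne
      apply hx
      have h1 : c = ∑ y, if ∑ i, B.dg (y i) = 2 * j then e.repr c y • e y else 0 := by
        conv_lhs => rw [← proj_same (W.isInternal (pw X n)) hc1, ← e.sum_repr c]
        rw [map_sum]
        refine Finset.sum_congr rfl fun y _ => ?_
        rw [map_smul]
        have h2 : e y ∈ W.gr (pw X n) (∑ i, B.dg (y i)) := by rw [he]; exact B.word_mem n y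
        by_cases hy : ∑ i, B.dg (y i) = 2 * j
        · rw [if_pos hy]
          rw [hy] at h2
          rw [proj_same _ h2]
        · rw [if_neg hy, proj_ne _ h2 hy, smul_zero]
      have h3 := congrArg (fun z => e.repr z x) h1
      simp only [map_sum, Finsupp.finsetSum_apply] at h3
      rw [h3, Finset.sum_eq_zero]
      intro y _
      by_cases hy : ∑ i, B.dg (y i) = 2 * j
      · rw [if_pos hy, map_smul, Finsupp.smul_apply, e.repr_self, Finsupp.single_eq_of_ne,
          smul_zero]
        rintro rfl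
        exact hne hy
      · rw [if_neg hy, map_zero, Finsupp.zero_apply]
    · refine (finite_order_iff (W := W) hΔ (∏ i, B.ps (x i)) ((χ.comp Δ.subtype) ^ j)).2
        ⟨Δ', hΔ', fun g hg => ?_⟩
      have h1 := hc2 g hg
      have h2 : e.repr (G.act n g c) x = ((∏ i, B.ps (x i)) g : W.K) * e.repr c x := by
        conv_lhs => rw [← e.sum_repr c]
        rw [map_sum, map_sum, Finsupp.finsetSum_apply, Finset.sum_eq_single x]
        · rw [map_smul, he, B.word_eig, ← he, map_smul, map_smul, Finsupp.smul_apply,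
            Finsupp.smul_apply, e.repr_self, Finsupp.single_eq_same, smul_eq_mul, smul_eq_mul,
            mul_one, mul_comm]
        · intro y _ hy
          rw [map_smul, he, B.word_eig, ← he, map_smul, map_smul, Finsupp.smul_apply,
            Finsupp.smul_apply, e.repr_self, Finsupp.single_eq_of_ne (Ne.symm hy), smul_zero,
            smul_zero]
        · intro h
          exact absurd (Finset.mem_univ _) h
      rw [h1, map_smul, Finsupp.smul_apply, smul_eq_mul] at h2
      have h3 := mul_right_cancel₀ hx h2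
      apply Units.ext
      rw [← h3]
      simp
  · rw [Submodule.span_le]
    rintro _ ⟨⟨x, hx⟩, rfl⟩
    obtain ⟨j, hj⟩ := B.word_T hΔ hx
    change e x ∈ T G n
    rw [he]
    exact Submodule.subset_span ⟨j, hj⟩

open Classical in
lemma finrank_T (hΔ : Δ.FiniteIndex) (n : ℕ) : Module.finrank W.K (T G n) =
    Fintype.card {x : Fin (n + 1) → Fin b // B.Good x} := by
  obtain ⟨e, he⟩ := exists_word_basis B.v n
  rw [B.T_eq hΔ n he]
  exact finrank_span_eq_card (e.linearIndependent.comp _ Subtype.val_injective)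

/-- The action on the cohomology of `X` as linear maps. -/
noncomputable def L (G : GaloisPowers W X Γ χ) (g : Γ) : W.H X →ₗ[W.K] W.H X :=
  (G.act 0 g).toAlgHom.toLinearMap

/-- The normalised characters. -/
noncomputable def f (i : Fin b) (g : Δ) : Additive W.Kˣ :=
  Additive.ofMul (B.ps i g ^ 2 / χ g ^ B.dg i)

lemma range_f : Set.range B.f = weights (A := W.H X) χ (W.gr X) (G.act 0) Δ := by
  classical
  ext a
  constructor
  · rintro ⟨i, rfl⟩
    exact ⟨B.dg i, B.ps i, B.v i, B.mem i, B.v.ne_zero i, B.eig i, rfl⟩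
  · rintro ⟨d, ψ, x, hx, hx0, hx1, rfl⟩
    obtain ⟨i, hi⟩ : ∃ i, B.v.repr x i ≠ 0 ∧ B.dg i = d := by
      by_contra hcon
      push Not at hcon
      apply hx0
      rw [← proj_same (W.isInternal X) hx]
      conv_lhs => rw [← B.v.sum_repr x]
      rw [map_sum]
      refine Finset.sum_eq_zero fun i _ => ?_
      rw [map_smul]
      by_cases h : B.v.repr x i = 0
      · rw [h, zero_smul]
      · rw [proj_ne _ (B.mem i) (hcon i h), smul_zero]
    refine ⟨i, ?_⟩
    funext g
    have h1 : B.v.repr (L G g x) i = (B.ps i g : W.K) * B.v.repr x i := by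
      conv_lhs => rw [← B.v.sum_repr x]
      rw [map_sum, map_sum, Finsupp.finsetSum_apply, Finset.sum_eq_single i]
      · rw [map_smul]
        have h2 : L G g (B.v i) = (B.ps i g : W.K) • B.v i :=
          B.eig i g
        rw [h2, map_smul, map_smul, Finsupp.smul_apply,
            Finsupp.smul_apply, B.v.repr_self, Finsupp.single_eq_same, smul_eq_mul, smul_eq_mul,
            mul_one, mul_comm]
      · intro y _ hy
        rw [map_smul]
        have h2 : L G g (B.v y) = (B.ps y g : W.K) • B.v y :=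
          B.eig y g
        rw [h2, map_smul, map_smul, Finsupp.smul_apply,
            Finsupp.smul_apply, B.v.repr_self, Finsupp.single_eq_of_ne (Ne.symm hy), smul_zero,
            smul_zero]
      · intro h
        exact absurd (Finset.mem_univ _) h
    have h2 : L G g x = (ψ g : W.K) • x := hx1 g
    rw [h2, map_smul, Finsupp.smul_apply, smul_eq_mul] at h1
    have h3 : ψ g = B.ps i g := Units.ext (mul_right_cancel₀ hi.1 h1)
    rw [GB.f, h3, hi.2]

lemma rank_eq : Module.finrank ℤ (Submodule.span ℤ (Set.range B.f)) = toricRank G Δ := by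
  rw [B.range_f]
  rfl

/-- The sign. -/
def sgn (i : Fin b) : ℤˣ := (-1) ^ B.dg i

lemma prod_sgn {n : ℕ} (x : Fin n → Fin b) : ∏ i, B.sgn (x i) = (-1) ^ (∑ i, B.dg (x i)) := by
  simp only [sgn]
  rw [Finset.prod_pow_eq_pow_sum]

lemma sum_f {κ : Type} [Fintype κ] (x : κ → Fin b) (g : Δ) : (∑ i, B.f (x i)) g =
    Additive.ofMul (((∏ i, B.ps (x i)) g) ^ 2 / χ g ^ ∑ i, B.dg (x i)) := by
  rw [Finset.sum_apply]
  simp only [f]
  rw [← ofMul_prod, Finset.prod_div_distrib, Finset.prod_pow, Finset.prod_pow_eq_pow_sum,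
    MonoidHom.finsetProd_apply]

lemma good_iff {n : ℕ} (x : Fin n → Fin b) :
    B.Good x ↔ (∃ m, 0 < m ∧ m • ∑ i, B.f (x i) = 0) ∧ ∏ i, B.sgn (x i) = 1 := by
  rw [prod_sgn, Good]
  have key : ∀ m : ℕ, m • ∑ i, B.f (x i) = 0 ↔
      ∀ g : Δ, (((∏ i, B.ps (x i)) g) ^ 2) ^ m = (χ g ^ ∑ i, B.dg (x i)) ^ m := by
    intro m
    rw [funext_iff]
    refine forall_congr' fun g => ?_
    rw [Pi.smul_apply, B.sum_f, Pi.zero_apply, ← ofMul_pow, ofMul_eq_zero, div_pow, div_eq_one]
  constructor
  · rintro ⟨j, hj, m, hm, h⟩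
    refine ⟨⟨m, hm, (key m).2 fun g => ?_⟩, by rw [hj, pow_mul, neg_one_sq, one_pow]⟩
    rw [hj, ← pow_mul, mul_comm 2 m, pow_mul, h g, ← pow_mul, ← pow_mul, ← pow_mul]
    congr 1
    ring
  · rintro ⟨⟨m, hm, h⟩, hs⟩
    have heven : Even (∑ i, B.dg (x i)) := by
      rcases Nat.even_or_odd (∑ i, B.dg (x i)) with h | h
      · exact h
      · rw [h.neg_one_pow] at hs
        exact absurd hs (by decide)
    obtain ⟨j, hj⟩ := heven
    refine ⟨j, by rw [hj]; ring, 2 * m, Nat.mul_pos two_pos hm, fun g => ?_⟩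
    have h1 := (key m).1 h g
    rw [pow_mul, h1, hj, ← pow_mul, ← pow_mul]
    congr 1
    ring

/-- The sum of all normalised characters is torsion. -/
lemma sum_all : ∃ m, 0 < m ∧ m • ∑ i, B.f i = 0 := by
  classical
  -- the Gram matrix
  set M : Matrix (Fin b) (Fin b) W.K := fun i j => W.tr X (B.v i * B.v j) with hM
  have hdet : M.det ≠ 0 := by
    intro h0
    obtain ⟨c, hc, h⟩ := Matrix.exists_vecMul_eq_zero_iff.2 h0
    have h1 : ∑ i, c i • B.v i = 0 := by
      apply W.nondeg
      intro y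
      have h2 : (W.tr X ∘ₗ LinearMap.mulLeft W.K (∑ i, c i • B.v i)) = 0 := by
        refine B.v.ext fun j => ?_
        rw [LinearMap.comp_apply, LinearMap.mulLeft_apply, LinearMap.zero_apply, Finset.sum_mul,
          map_sum]
        have h3 := congrFun h j
        rw [Matrix.vecMul, dotProduct, Pi.zero_apply] at h3
        rw [← h3]
        refine Finset.sum_congr rfl fun i _ => ?_
        rw [smul_mul_assoc, map_smul, smul_eq_mul]
      exact congrArg (fun f => f y) h2
    apply hc
    funext i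
    exact Fintype.linearIndependent_iff.1 B.v.linearIndependent c h1 i
  obtain ⟨σ, -, hσ⟩ : ∃ σ ∈ (Finset.univ : Finset (Equiv.Perm (Fin b))),
      Equiv.Perm.sign σ • ∏ i, M (σ i) i ≠ 0 := by
    rw [Matrix.det_apply] at hdet
    exact Finset.exists_ne_zero_of_sum_ne_zero hdet
  have hσ' : ∀ i, W.tr X (B.v (σ i) * B.v i) ≠ 0 := by
    intro i hi
    apply hσ
    have h1 : ∏ j, M (σ j) j = 0 :=
      Finset.prod_eq_zero (f := fun j => M (σ j) j) (Finset.mem_univ i) hi
    rw [h1, smul_zero]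
  have hdg : ∀ i, B.dg (σ i) + B.dg i = 2 * X.dim := by
    intro i
    by_contra hne
    exact hσ' i (W.tr_eq_zero (W.mul_mem (B.mem _) (B.mem _)) hne)
  have hps : ∀ i (g : Δ), B.ps (σ i) g * B.ps i g = χ g ^ X.dim := by
    intro i g
    have h1 := (G.isAct.galois 0).tr_act g (B.v (σ i) * B.v i)
    have h2 : G.act 0 g (B.v (σ i) * B.v i) =
        ((B.ps (σ i) g : W.K) * B.ps i g) • (B.v (σ i) * B.v i : W.H X) := by
      refine (map_mul (G.act 0 g) (B.v (σ i)) (B.v i)).trans ?_
      have h3 : G.act 0 g (B.v (σ i)) = (B.ps (σ i) g : W.K) • B.v (σ i) := B.eig (σ i) g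
      have h4 : G.act 0 g (B.v i) = (B.ps i g : W.K) • B.v i := B.eig i g
      exact (congrArg₂ (· * ·) h3 h4).trans
        (smul_mul_smul_comm (B.ps (σ i) g : W.K) (B.v (σ i) : W.H X) (B.ps i g : W.K)
          (B.v i : W.H X))
    have h3 : W.tr X (((B.ps (σ i) g : W.K) * B.ps i g) • (B.v (σ i) * B.v i : W.H X)) =
        (χ g : W.K) ^ X.dim * W.tr X (B.v (σ i) * B.v i) := (congrArg (W.tr X) h2).symm.trans h1
    rw [map_smul, smul_eq_mul] at h3
    apply Units.ext
    rw [Units.val_mul, Units.val_pow_eq_pow_val]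
    exact mul_right_cancel₀ (hσ' i) h3
  refine ⟨2, two_pos, ?_⟩
  have h3 : ∑ i, (B.f (σ i) + B.f i) = 0 := by
    refine Finset.sum_eq_zero fun i _ => ?_
    funext g
    rw [Pi.add_apply, GB.f, GB.f, ← ofMul_mul, Pi.zero_apply, ofMul_eq_zero, div_mul_div_comm,
      ← mul_pow, hps, ← pow_add, hdg, ← pow_mul, mul_comm X.dim 2, div_self']
  rw [Finset.sum_add_distrib, Equiv.sum_comp σ B.f] at h3
  rw [two_smul]
  exact h3

include B in
/-- The trace pairing is not degenerate on the Tate classes. -/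
lemma nondeg (hΔ : Δ.FiniteIndex) {n : ℕ} {x : W.H (pw X n)} (hx : x ∈ T G n)
    (h : ∀ y ∈ T G n, W.tr (pw X n) (x * y) = 0) : x = 0 := by
  classical
  obtain ⟨e, he⟩ := exists_word_basis B.v n
  apply W.nondeg
  intro c
  have key : (W.tr (pw X n) ∘ₗ LinearMap.mulLeft W.K x) = 0 := by
    refine e.ext fun w => ?_
    change W.tr (pw X n) (x * e w) = 0
    by_cases hw : B.Good w
    · apply h
      obtain ⟨j, hj⟩ := B.word_T hΔ hw
      rw [he]
      exact Submodule.subset_span ⟨j, hj⟩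
    · rw [B.T_eq hΔ n he] at hx
      clear h
      induction hx using Submodule.span_induction with
      | zero => rw [zero_mul, map_zero]
      | add x y _ _ hx hy => rw [add_mul, map_add, hx, hy, add_zero]
      | smul c x _ hx => rw [smul_mul_assoc, map_smul, hx, smul_zero]
      | mem x hx =>
        obtain ⟨⟨w', j, hj, m, hm, hw'⟩, rfl⟩ := hx
        change W.tr (pw X n) (e w' * e w) = 0
        by_contra hne
        apply hw
        have h1 : ∑ i, B.dg (w' i) + ∑ i, B.dg (w i) = 2 * (pw X n).dim := by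
          by_contra hdeg
          apply hne
          refine W.tr_eq_zero (W.mul_mem ?_ ?_) hdeg
          · rw [he]; exact B.word_mem n w'
          · rw [he]; exact B.word_mem n w
        refine ⟨(pw X n).dim - j, by omega, m, hm, fun g => ?_⟩
        have h2 : ∀ g : Δ, (∏ i, B.ps (w' i)) g * (∏ i, B.ps (w i)) g = χ g ^ (pw X n).dim := by
          intro g
          have h3 := (G.isAct.galois n).tr_act g (e w' * e w)
          rw [map_mul, he, he, B.word_eig, B.word_eig, smul_mul_smul_comm, map_smul,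
            smul_eq_mul, ← he, ← he] at h3
          apply Units.ext
          rw [Units.val_mul, Units.val_pow_eq_pow_val]
          exact mul_right_cancel₀ hne h3
        have h3 := h2 g
        have h4 := hw' g
        have hle : j ≤ (pw X n).dim := by omega
        have h5 : ((∏ i, B.ps (w' i)) g) ^ m * ((∏ i, B.ps (w i)) g) ^ m =
            (χ g ^ j) ^ m * (χ g ^ ((pw X n).dim - j)) ^ m := by
          rw [← mul_pow, h3, ← mul_pow, ← pow_add, Nat.add_sub_cancel' hle]
        rw [h4] at h5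
        exact mul_left_cancel h5
  exact congrArg (fun f => f c) key

end GB

/-- **The growth of the number of Tate classes.** -/
theorem tate_growth [Nontrivial (W.H X)] (h : IsToric G Δ) :
    ∃ C : ℝ, 0 < C ∧ Tendsto (fun n : ℕ => Real.sqrt (n + 1 : ℕ) ^ toricRank G Δ *
      ((Module.finrank W.K (T G n) : ℝ) /
        (Module.finrank W.K (W.H X) : ℝ) ^ (n + 1))) atTop (𝓝 C) := by
  classical
  obtain ⟨B⟩ := exists_GB h
  obtain ⟨u, hu1, hu2⟩ := GR.exists_lattice B.f B.rank_eq
  have hgood : ∀ {n : ℕ} (x : Fin n → Fin (Module.finrank W.K (W.H X))),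
      B.Good x ↔ ∑ k, u (x k) = 0 ∧ ∏ k, B.sgn (x k) = 1 := by
    intro n x
    rw [B.good_iff, hu2]
  have hcount : ∀ n, Module.finrank W.K (T G n) = GR.evenWalks u B.sgn (n + 1) := by
    intro n
    rw [B.finrank_T h.finiteIndex, Fintype.card_subtype, GR.evenWalks]
    congr 1
    ext x
    simp only [Finset.mem_filter, Finset.mem_univ, true_and]
    exact hgood x
  -- the zero step
  obtain ⟨i₀, h₀, hs₀⟩ : ∃ i, u i = 0 ∧ B.sgn i = 1 := by
    have h1 : 0 < Module.finrank W.K (T G 0) := by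
      have h3 : G.IsTateClass 0 0 (1 : W.H (pw X 0)) := by
        refine ⟨W.one_mem (pw X 0), ⊤, inferInstance, fun g _ => ?_⟩
        rw [pow_zero, one_smul]
        exact map_one (G.act 0 g)
      have : Nontrivial (T G 0) := by
        refine ⟨⟨⟨(1 : W.H X), Submodule.subset_span ⟨0, h3⟩⟩, 0, fun h => ?_⟩⟩
        exact (one_ne_zero : (1 : W.H X) ≠ 0) (congrArg Subtype.val h)
      exact Module.finrank_pos
    rw [hcount, GR.evenWalks, Finset.card_pos] at h1
    obtain ⟨x, hx⟩ := h1
    simp only [Finset.mem_filter, Finset.mem_univ, true_and] at hx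
    rw [Fin.sum_univ_one, Fin.prod_univ_one] at hx
    exact ⟨x 0, hx⟩
  have hmean : ∑ i, u i = 0 := (hu2 (Fin _) (id : Fin _ → Fin _)).2 B.sum_all
  obtain ⟨C, hC, hlim⟩ := GR.evenWalks_tendsto u B.sgn i₀ h₀ hs₀ hu1 hmean
  refine ⟨C, hC, ?_⟩
  have h1 := hlim.comp (tendsto_add_atTop_nat 1)
  refine h1.congr fun n => ?_
  simp only [Function.comp_apply, hcount, Fintype.card_fin]

lemma tateDim_eq (G : GaloisPowers W X Γ χ) (n : ℕ) : G.tateDim n = Module.finrank W.K (T G n) :=
  rfl

/-- **The growth of the numbers of Tate classes and of cycles.** -/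
theorem main [Nontrivial (W.H X)] (h : IsToric G Δ) {b r : ℕ}
    (hb : b = Module.finrank W.K (W.H X)) (hr : r = toricRank G Δ) :
    ∃ (C : ℝ) (N : ℕ∞), 0 < C ∧ 1 ≤ N ∧
      Tendsto (scaled b r G.tateDim) atTop (𝓝 C) ∧
      Tendsto (scaled b r fun n => cycRank ops (pw X n)) atTop
        (𝓝 (C * ((N : ℝ≥0∞)⁻¹).toReal)) ∧
      (N = 1 ↔ ∀ n, G.TateFor n) := by
  subst hb hr
  obtain ⟨C, hC, hlim⟩ := tate_growth h
  obtain ⟨N, hN1, hN, hN3, -⟩ := TIL.main W X χ G
  have hrpow : ∀ n : ℕ, Real.sqrt (n + 1 : ℕ) ^ toricRank G Δ =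
      ((n + 1 : ℕ) : ℝ) ^ ((toricRank G Δ : ℝ) / 2) := by
    intro n
    rw [Real.sqrt_eq_rpow, ← Real.rpow_natCast, ← Real.rpow_mul (Nat.cast_nonneg _)]
    congr 1
    ring
  have hT0 : ∀ n, 0 < G.tateDim n := by
    intro n
    have hne : (1 : W.H (pw X n)) ≠ 0 := by
      have : Nontrivial (W.H (pw X n)) := by
        apply Module.nontrivial_of_finrank_pos (R := W.K)
        rw [Pool.Agent.Y129.finrank_pw]
        exact Nat.pow_pos Module.finrank_pos
      exact one_ne_zero
    rw [tateDim_eq]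
    have h3 : G.IsTateClass n 0 (1 : W.H (pw X n)) := by
      refine ⟨W.one_mem _, ⊤, inferInstance, fun g _ => ?_⟩
      rw [pow_zero, one_smul, map_one]
    have : Nontrivial (T G n) := by
      refine ⟨⟨⟨1, Submodule.subset_span ⟨0, h3⟩⟩, 0, fun h => ?_⟩⟩
      exact hne (congrArg Subtype.val h)
    exact Module.finrank_pos
  refine ⟨C, N, hC, hN1, ?_, ?_, ?_⟩
  · refine hlim.congr fun n => ?_
    rw [scaled, hrpow, mul_div_assoc, tateDim_eq]
  · -- the ratio
    have h1 : Tendsto (fun n => ((cycRank ops (pw X n) : ℝ≥0∞) / G.tateDim n)) atTop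
        (𝓝 (N : ℝ≥0∞)⁻¹) := by
      refine hN.1.inv.congr fun n => ?_
      rw [ENNReal.inv_div]
      · exact Or.inl (ENNReal.natCast_ne_top _)
      · right
        exact Nat.cast_ne_zero.2 (hT0 n).ne'
    have hNtop : (N : ℝ≥0∞)⁻¹ ≠ ⊤ := by
      rw [Ne, ENNReal.inv_eq_top]
      intro h0
      have : N = 0 := by exact_mod_cast h0
      rw [this] at hN1
      exact absurd hN1 (by decide)
    have h2 := (ENNReal.tendsto_toReal hNtop).comp h1
    have h3 := hlim.mul h2
    refine h3.congr fun n => ?_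
    simp only [Function.comp_apply]
    rw [ENNReal.toReal_div, ENNReal.toReal_natCast, ENNReal.toReal_natCast, hrpow, scaled,
      ← tateDim_eq]
    have h4 : (G.tateDim n : ℝ) ≠ 0 := by
      exact_mod_cast (hT0 n).ne'
    field_simp
  · rw [hN3]
    refine forall_congr' fun n => ?_
    refine ⟨fun h1 => h1.1, fun h1 => ⟨h1, ?_⟩⟩
    -- the conjecture D
    obtain ⟨B⟩ := exists_GB h
    rw [Pool.Agent.Y133.Half.homEqNum_iff, eq_bot_iff]
    intro c hc
    have h2 : c ∈ algSpan W (pw X n) ∧ ∀ d ∈ algSpan W (pw X n), W.tr (pw X n) (c * d) = 0 := hc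
    have hTle : T G n ≤ algSpan W (pw X n) := by
      rw [T, Submodule.span_le]
      rintro d ⟨j, hd⟩
      exact h1 j d hd
    have hle : algSpan W (pw X n) ≤ T G n := by
      have h3 := (G.isAct).algSpan_le n
      refine h3.trans (iSup_le fun j z hz => Submodule.subset_span ⟨j, hz⟩)
    rw [Submodule.mem_bot]
    exact B.nondeg h.finiteIndex (hle h2.1) fun y hy => h2.2 y (hTle hy)

end Pool.Agent.X297.GT
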