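import Pool.Agent.X297.TILDefs

/-!
# The Galois action on the cohomology of a variety whose `ℓ`-adic group is a torus: definitions
-/

open CategoryTheory AlgebraicGeometry

universe u v w

namespace Pool.Agent.X297.GT

section Alg

variable {K : Type v} [Field K] {A : Type v} [Ring A] [Algebra K A] {Γ : Type w} [Group Γ]

/-- All elements `g` of the subgroup `Δ` multiply `x` by `ψ g`. -/
def IsEigen (ρ : Γ →* (A ≃ₐ[K] A)) (Δ : Subgroup Γ) (ψ : Δ →* Kˣ) (x : A) : Prop :=
  ∀ g : Δ, ρ g x = (ψ g : K) • x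

/-- The algebra is spanned by the homogeneous elements which are eigenvectors of all elements of
`Δ`. -/
def IsDiagonal (gr : ℕ → Submodule K A) (ρ : Γ →* (A ≃ₐ[K] A)) (Δ : Subgroup Γ) : Prop :=
  Submodule.span K {x | ∃ i ψ, x ∈ gr i ∧ IsEigen ρ Δ ψ x} = ⊤

/-- The characters `ψ ^ 2 / χ ^ i` of `Δ`, where `ψ` is the character of an eigenvector of `Δ` in
`gr i`. -/
def weights (χ : Γ →* Kˣ) (gr : ℕ → Submodule K A) (ρ : Γ →* (A ≃ₐ[K] A)) (Δ : Subgroup Γ) :
    Set (Δ → Additive Kˣ) :=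
  {f | ∃ i ψ, ∃ x ∈ gr i, x ≠ 0 ∧ IsEigen ρ Δ ψ x ∧
    f = fun g => Additive.ofMul (ψ g ^ 2 / χ g ^ i)}

/-- The rank of the group generated by the characters `ψ ^ 2 / χ ^ i`. -/
noncomputable def weightRank (χ : Γ →* Kˣ) (gr : ℕ → Submodule K A) (ρ : Γ →* (A ≃ₐ[K] A))
    (Δ : Subgroup Γ) : ℕ :=
  Module.finrank ℤ (Submodule.span ℤ (weights χ gr ρ Δ))

end Alg

/-- The sequence `t n * (n + 1) ^ (r / 2) / b ^ (n + 1)`. -/
noncomputable def scaled (b r : ℕ) (t : ℕ → ℕ) (n : ℕ) : ℝ :=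
  ((n + 1 : ℕ) : ℝ) ^ ((r : ℝ) / 2) * t n / (b : ℝ) ^ (n + 1)

open Pool.Agent.H914 Pool.Agent.H914.VarClass Pool.Agent.H914.VarClass.Obj
  Pool.Agent.H914.WeilCohomology Pool.Agent.X297.TIL
open Pool.Agent.Y129 (pw)

variable {k : Type u} [Field k] {𝒱 : VarClass k} {ops : CycleOps 𝒱}
  {W : WeilCohomology.{u, v} ops} {X : 𝒱.Obj} {Γ : Type w} [Group Γ] {χ : Γ →* W.Kˣ}

/-- The subgroup `Δ` has finite index and acts on the cohomology of `X` diagonally: the Galois
representation is semisimple and abelian after a finite extension of the base field. -/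
structure IsToric (G : GaloisPowers W X Γ χ) (Δ : Subgroup Γ) : Prop where
  finiteIndex : Δ.FiniteIndex
  diagonal : IsDiagonal (A := W.H X) (W.gr X) (G.act 0) Δ

/-- The dimension of the torus (the rank of the group of the normalised characters). -/
noncomputable def toricRank (G : GaloisPowers W X Γ χ) (Δ : Subgroup Γ) : ℕ :=
  weightRank (A := W.H X) χ (W.gr X) (G.act 0) Δ

end Pool.Agent.X297.GT
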